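import Pool.Agent.Helper16.RP.LA
import Pool.Agent.Helper11.LE.Goals1

/-!
# Packet LE-LA (MP_fc6b1e_nt): the linear algebra of project LE
-/

namespace Pool.Agent.Helper9.LE

open Polynomial Module TensorProduct Pool.Agent.Helper51.SigLeo Pool.Agent.Helper11.LE
open Pool.Agent.Helper16.RP
open Pool.Agent.Helper12.RS (exists_coord s_eq ker_sub)

/-- The statement without the torsion. -/
theorem step (p : ℕ) [Fact p.Prime] (k : Type) [NormedField k] [NormedAlgebra ℚ_[p] k]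
    (A : Type) [AddCommGroup A] [Module.Finite ℤ A] (γ : A →+ A)
    (hγ : ∀ x, ∑ j ∈ Finset.range p, γ^[j] x = 0) (ι : Type) [Finite ι] (f : ι → A →+ ℚ_[p])
    (z : k ⊗[ℤ] A) (hz : z ≠ 0)
    (hfz : ∀ j l, ek k (f j) ((extEnd γ : (k ⊗[ℤ] A) →ₗ[k] (k ⊗[ℤ] A))^[l] z) = 0) :
    ∃ u : ℕ → A, (∀ N, ∃ a, u N = u 0 + p • a) ∧ (¬ ∃ b : A, u 0 = γ b - b) ∧
      ∀ N j l, ‖f j (γ^[l] (u N))‖ ≤ (1 / p : ℝ) ^ N := by
  have hp : p.Prime := Fact.out
  have hp0 : (p : ℝ) ≠ 0 := Nat.cast_ne_zero.2 hp.ne_zero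
  have hid : (extEnd (AddMonoidHom.id A) : (k ⊗[ℤ] A) →ₗ[k] (k ⊗[ℤ] A)) z = (1 : k) • z := by
    rw [one_smul]
    induction z using TensorProduct.induction_on with
    | zero => simp
    | tmul c a => rw [extEnd_tmul']; rfl
    | add x y hx hy =>
      have h1 : ∀ x : k ⊗[ℤ] A,
          (extEnd (AddMonoidHom.id A) : (k ⊗[ℤ] A) →ₗ[k] (k ⊗[ℤ] A)) x = x := by
        intro x
        induction x using TensorProduct.induction_on with
        | zero => simp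
        | tmul c a => rw [extEnd_tmul']; rfl
        | add x y hx hy => rw [map_add, hx, hy]
      exact h1 _
  obtain ⟨w₀, hw₀, -, hw₂⟩ := gp (p := p) (X - 1 : ℤ_[p][X]) (1 : k) (by simp) (AddMonoidHom.id A)
    hz hid
  set gB := bc p γ with hgB
  have hgeo : ∑ j ∈ Finset.range p, gB ^ j = 0 := bc_geom p γ hγ
  -- the submodule
  let W : Submodule ℤ_[p] (ℤ_[p] ⊗[ℤ] A) := ⨅ j : ι, ⨅ l : ℕ, LinearMap.ker (ez (f j) ∘ₗ gB ^ l)
  have hmem : ∀ x, x ∈ W ↔ ∀ j l, ez (f j) ((gB ^ l) x) = 0 := by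
    intro x
    show x ∈ (⨅ j : ι, ⨅ l : ℕ, LinearMap.ker (ez (f j) ∘ₗ gB ^ l) :
      Submodule ℤ_[p] (ℤ_[p] ⊗[ℤ] A)) ↔ _
    simp only [Submodule.mem_iInf, LinearMap.mem_ker, LinearMap.comp_apply]
  have hw₀W : w₀ ∈ W := by
    rw [hmem]
    intro j l
    rw [hgB, ← ez_it]
    refine hw₂ _ ?_
    rw [ek_it]
    exact hfz j l
  have hgW : ∀ w ∈ W, gB w ∈ W := by
    intro w hw
    rw [hmem] at hw ⊢
    intro j l
    have := hw j (l + 1)
    rwa [pow_succ, Module.End.mul_apply] at this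
  -- some element of `W` is not in `(γ-1)B`
  obtain ⟨w, hwW, hw⟩ : ∃ w ∈ W, ¬ ∃ v, w = gB v - v := by
    by_contra hcon
    push Not at hcon
    have hbot := eq_bot gB hgeo W hgW (fun w hw => by
      obtain ⟨v, hv⟩ := hcon w hw
      refine ⟨v, (hmem _).2 ?_, hv⟩
      intro j
      have h1 : ∀ l : ℕ, ez (f j) ((gB ^ l) v) = ez (f j) v := by
        intro l
        induction l with
        | zero => rfl
        | succ l ih =>
          have h2 := ((hmem w).1 hw) j l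
          rw [hv, map_sub, map_sub, ih, sub_eq_zero] at h2
          rw [pow_succ, Module.End.mul_apply]
          exact h2
      have h3 : (p : ℚ_[p]) * ez (f j) v = 0 := by
        have h4 := congrArg (fun T : Module.End ℤ_[p] (ℤ_[p] ⊗[ℤ] A) => ez (f j) (T v)) hgeo
        simp only [LinearMap.sum_apply, LinearMap.zero_apply, map_sum, map_zero, h1] at h4
        rw [Finset.sum_const, Finset.card_range, nsmul_eq_mul] at h4
        exact h4
      have h5 : ez (f j) v = 0 :=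
        (mul_eq_zero.1 h3).resolve_left (Nat.cast_ne_zero.2 hp.ne_zero)
      intro l
      rw [h1 l, h5])
    rw [hbot, Submodule.mem_bot] at hw₀W
    exact hw₀ hw₀W
  have hwF := (hmem w).1 hwW
  obtain ⟨c₀, hc₀⟩ := exists_bound f
  -- the sequence
  have hdens := fun N : ℕ => density p (N + c₀ + 1) w
  choose u b hub using hdens
  have hpB : ∀ x : ℤ_[p] ⊗[ℤ] A, ∃ v, (p : ℤ_[p]) • x = gB v - v := by
    intro x
    obtain ⟨v, hv⟩ := nsmul_mem (gB : (ℤ_[p] ⊗[ℤ] A) →+ (ℤ_[p] ⊗[ℤ] A)) p (fun x => by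
      have h1 := congrArg (fun T : Module.End ℤ_[p] (ℤ_[p] ⊗[ℤ] A) => T x) hgeo
      simp only [LinearMap.sum_apply, LinearMap.zero_apply, Module.End.pow_apply] at h1
      exact h1) x
    exact ⟨v, by rw [Nat.cast_smul_eq_nsmul]; exact hv⟩
  have hpow : ∀ (N : ℕ), (p : ℤ_[p]) ^ (N + c₀ + 1) • b N =
      (p : ℤ_[p]) • ((p : ℤ_[p]) ^ (N + c₀) • b N) := fun N => by
    rw [smul_smul, ← pow_succ']
  have hu1 : ∀ N, (1 : ℤ_[p]) ⊗ₜ[ℤ] u N = w - (p : ℤ_[p]) ^ (N + c₀ + 1) • b N := fun N =>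
    eq_sub_of_add_eq (hub N).symm
  refine ⟨u, ?_, ?_, ?_⟩
  · intro N
    have h1 : (1 : ℤ_[p]) ⊗ₜ[ℤ] (u N - u 0) =
        (p : ℤ_[p]) • ((p : ℤ_[p]) ^ (0 + c₀) • b 0 - (p : ℤ_[p]) ^ (N + c₀) • b N) := by
      rw [TensorProduct.tmul_sub, hu1, hu1, smul_sub, ← hpow, ← hpow]
      abel
    obtain ⟨a', ha'⟩ := inj_mod p _ _ h1
    exact ⟨a', by rw [← ha']; abel⟩
  · rintro ⟨a, ha⟩
    apply hw
    obtain ⟨v, hv⟩ := hpB ((p : ℤ_[p]) ^ (0 + c₀) • b 0)
    refine ⟨(1 : ℤ_[p]) ⊗ₜ[ℤ] a + v, ?_⟩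
    have h1 := hub 0
    rw [hpow, hv, ha, TensorProduct.tmul_sub] at h1
    rw [h1, map_add, hgB, bc_tmul]
    abel
  · intro N j l
    have h1 : ((f j (γ^[l] (u N)) : ℚ_[p])) =
        -((p : ℚ_[p]) ^ (N + c₀ + 1) * ez (f j) ((gB ^ l) (b N))) := by
      have h2 : f j (γ^[l] (u N)) = ez (f j) ((gB ^ l) ((1 : ℤ_[p]) ⊗ₜ[ℤ] u N)) := by
        rw [hgB, bc_pow_tmul, ez_tmul]
        simp
      rw [h2, hu1, map_sub, map_sub, hwF, zero_sub, map_smul, map_smul]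
      congr 1
    rw [h1, norm_neg, norm_mul, norm_pow, Padic.norm_p]
    have h3 := hc₀ j ((gB ^ l) (b N))
    have h4 : (0 : ℝ) < p := Nat.cast_pos.2 hp.pos
    calc ((p : ℝ)⁻¹) ^ (N + c₀ + 1) * ‖ez (f j) ((gB ^ l) (b N))‖
        ≤ ((p : ℝ)⁻¹) ^ (N + c₀ + 1) * (p : ℝ) ^ c₀ :=
          mul_le_mul_of_nonneg_left h3 (by positivity)
      _ = (1 / p : ℝ) ^ N * (p : ℝ)⁻¹ := by
          rw [one_div, pow_succ, pow_add]
          have : ((p : ℝ)⁻¹) ^ c₀ * (p : ℝ) ^ c₀ = 1 := by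
            rw [← mul_pow, inv_mul_cancel₀ hp0, one_pow]
          linear_combination (((p : ℝ)⁻¹) ^ N * (p : ℝ)⁻¹) * this
      _ ≤ (1 / p : ℝ) ^ N := by
          refine mul_le_of_le_one_right (by positivity) ?_
          exact inv_le_one_of_one_le₀ (Nat.one_le_cast.2 hp.one_lt.le)

theorem l_la : L_LA := by
  intro p _ k _ _ A _ _ γ hγ ι _ f z hz hfz
  have hp : p.Prime := Fact.out
  have hch : CharZero k := charZero_of_injective_algebraMap (algebraMap ℚ_[p] k).injective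
  obtain ⟨r, π, s, hs, hk⟩ := exists_coord A
  obtain ⟨N₀, hN0, hN⟩ := exists_exp hk
  let γ' : (Fin r → ℤ) →+ (Fin r → ℤ) := π.comp (γ.comp s)
  have htor : ∀ a : A, π a = 0 → π (γ a) = 0 := by
    intro a ha
    have h1 := hN a ha
    have h2 : N₀ • π (γ a) = 0 := by rw [← map_nsmul, ← map_nsmul, h1, map_zero, map_zero]
    exact (smul_eq_zero.1 h2).resolve_left hN0
  have hcomp : ∀ a : A, γ' (π a) = π (γ a) := by
    intro a
    have h1 := htor _ (ker_sub hs a)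
    rw [map_sub, map_sub, sub_eq_zero] at h1
    exact h1.symm
  have hit : ∀ (l : ℕ) (a : A), γ'^[l] (π a) = π (γ^[l] a) := by
    intro l
    induction l with
    | zero => intro a; rfl
    | succ l ih => intro a; rw [Function.iterate_succ_apply, hcomp, ih, Function.iterate_succ_apply]
  have hγ' : ∀ x, ∑ j ∈ Finset.range p, γ'^[j] x = 0 := by
    intro x
    have h1 : ∀ j, γ'^[j] x = π (γ^[j] (s x)) := fun j => by rw [← hit, hs]
    simp only [h1]
    rw [← map_sum, hγ, map_zero]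
  let f' : ι → (Fin r → ℤ) →+ ℚ_[p] := fun j => (f j).comp s
  have hf' : ∀ j a, f' j (π a) = f j a := by
    intro j a
    have h1 := hN _ (ker_sub hs a)
    have h2 : N₀ • f j (a - s (π a)) = 0 := by rw [← map_nsmul, h1, map_zero]
    have h3 := (smul_eq_zero.1 h2).resolve_left hN0
    rw [map_sub, sub_eq_zero] at h3
    exact h3.symm
  let bm : (k ⊗[ℤ] A) →ₗ[k] (k ⊗[ℤ] (Fin r → ℤ)) := π.toIntLinearMap.baseChange k
  have hbm : ∀ (c : k) (a : A), bm (c ⊗ₜ[ℤ] a) = c ⊗ₜ[ℤ] (π a) := by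
    intro c a
    show π.toIntLinearMap.baseChange k (c ⊗ₜ[ℤ] a) = _
    rw [LinearMap.baseChange_tmul]
    rfl
  have hcr : ∀ t (x : k ⊗[ℤ] A), cr π k t x = cr (AddMonoidHom.id (Fin r → ℤ)) k t (bm x) := by
    intro t x
    induction x using TensorProduct.induction_on with
    | zero => simp
    | tmul c a => rw [hbm, cr_tmul, cr_tmul]; rfl
    | add x y hx hy => rw [map_add, map_add, map_add, hx, hy]
  have hz' : bm z ≠ 0 := by
    intro h
    apply hz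
    have h1 : N₀ • z = 0 := by
      rw [coord_eq hs hN k z]
      have h2 : ∀ t, cr π k t z = 0 := fun t => by rw [hcr, h, map_zero]
      simp [h2]
    rw [← Nat.cast_smul_eq_nsmul k] at h1
    exact (smul_eq_zero.1 h1).resolve_left (Nat.cast_ne_zero.2 hN0)
  have hek : ∀ j l (x : k ⊗[ℤ] A),
      ek k (f' j) ((extEnd γ' : (k ⊗[ℤ] (Fin r → ℤ)) →ₗ[k] (k ⊗[ℤ] (Fin r → ℤ)))^[l] (bm x)) =
        ek k (f j) ((extEnd γ : (k ⊗[ℤ] A) →ₗ[k] (k ⊗[ℤ] A))^[l] x) := by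
    intro j l x
    rw [← ek_it, ← ek_it]
    induction x using TensorProduct.induction_on with
    | zero => simp
    | tmul c a =>
      rw [hbm, ek_tmul, ek_tmul]
      congr 2
      show f' j (γ'^[l] (π a)) = f j (γ^[l] a)
      rw [hit, hf']
    | add x y hx hy => rw [map_add, map_add, map_add, hx, hy]
  obtain ⟨t, ht1, ht2, ht3⟩ := step p k (Fin r → ℤ) γ' hγ' ι f' (bm z) hz' (fun j l => by
    rw [hek]
    exact hfz j l)
  refine ⟨fun N => s (t N), fun N => ?_, ?_, fun N j l => ?_⟩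
  · obtain ⟨a, ha⟩ := ht1 N
    obtain ⟨b, hb⟩ := nsmul_mem γ p hγ (s a)
    refine ⟨b, ?_⟩
    show s (t N) = s (t 0) + (γ b - b)
    rw [← hb, ha, map_add, map_nsmul]
  · rintro ⟨b, v, n, hn, hnv, hb⟩
    apply ht2
    refine ⟨π b, ?_⟩
    have h1 : π v = 0 := by
      have h2 : n • π v = 0 := by rw [← map_nsmul, hnv, map_zero]
      exact (smul_eq_zero.1 h2).resolve_left hn.ne'
    have h2 := congrArg π hb
    rw [map_add, map_sub, h1, add_zero] at h2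
    rw [hcomp, ← h2]
    exact (hs _).symm
  · have h1 : f j (γ^[l] (s (t N))) = f' j (γ'^[l] (t N)) := by
      rw [← hf', ← hit, hs]
    show ‖f j (γ^[l] (s (t N)))‖ ≤ _
    rw [h1]
    exact ht3 N j l

end Pool.Agent.Helper9.LE
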