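import Pool.Agent.Helper74.LE.GoalsH

/-!
# Project LE (MP_cc6379_al): packet LE-HBD, the bounds `Bd` are good enough.
-/

set_option autoImplicit false

open LaurentPolynomial Pool.Agent.Helper15.RA Pool.Agent.Helper45.AM

noncomputable section

namespace Pool.Agent.Helper9.LE.HBD

open Pool.Agent.Helper74.LL (Full w0 Sm)

variable {S W H : Type} [Group W] [Ring H] [Algebra ℤ[T;T⁻¹] H]

/-- A left descent `k` of `z ∈ W_ij` gives `α (s_k) ≤ α z` and `α (s_k z) ≤ α z`. -/
theorem desc (X : Pool.Agent.Helper74.LE.TE S W H) (i j k : S) (hk : k = i ∨ k = j) (z : W)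
    (hz : z ∈ par X.cs {i, j}) (hd : X.cs.IsLeftDescent z k) :
    X.cs.simple k * z ∈ par X.cs {i, j} ∧ X.α (X.cs.simple k) ≤ X.α z ∧
      X.α (X.cs.simple k * z) ≤ X.α z := by
  obtain ⟨-, -, -, -, -, h6⟩ :=
    Pool.Agent.Helper15.AM.k_ap S W H X.toBase {i, j} X.α (X.pg {i, j} (Or.inr ⟨i, j, rfl⟩))
  have hs : X.cs.simple k ∈ par X.cs {i, j} := by
    refine Subgroup.subset_closure ⟨k, ?_, rfl⟩
    rcases hk with rfl | rfl
    · exact Set.mem_insert _ _
    · exact Set.mem_insert_of_mem _ rfl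
  have hm : X.cs.simple k * z ∈ par X.cs {i, j} := mul_mem hs hz
  have e : X.cs.simple k * (X.cs.simple k * z) = z := by
    rw [← mul_assoc, X.cs.simple_mul_simple_self, one_mul]
  have hl : X.cs.length (X.cs.simple k * (X.cs.simple k * z)) =
      X.cs.length (X.cs.simple k) + X.cs.length (X.cs.simple k * z) := by
    rw [e, X.cs.length_simple]
    have := X.cs.isLeftDescent_iff.1 hd
    omega
  have h := h6 _ hs _ hm hl
  rw [e] at h
  exact ⟨hm, h.1, h.2⟩

/-- Goal `HBD`. -/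
theorem t (h1 : Pool.Agent.Helper74.LL.KD1) (h2 : Pool.Agent.Helper74.LE.HWT)
    (h3 : Pool.Agent.Helper74.LE.HW0) (h4 : Pool.Agent.Helper74.LE.HPB)
    (h5 : Pool.Agent.Helper74.LE.DI1) (h6 : Pool.Agent.Helper74.LE.DI2) :
    Pool.Agent.Helper74.LE.HBD := by
  intro S W H _ _ _ X M i j g g' hij hg hg' hl3 hαM _
  obtain ⟨⟨-, hw0s, -, hw0l, -⟩, hK2, hK3, -, hK5, hK6, -, -, -⟩ :=
    h1 S W X.M X.cs i j hij (X.fin i j)
  obtain ⟨-, -, -, hT⟩ := h2 S W H X
  obtain ⟨-, hα1, hα2⟩ := h3 S W H X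
  have hαi : ∀ k, X.α (X.cs.simple k) = X.l k := hα1
  have hαw : X.α (w0 X.cs i j) = X.L (w0 X.cs i j) := (hα2 i j hij).1
  have hSm : Sm ({i, j} : Set S) := Or.inr ⟨i, j, rfl⟩
  have hgp : g ∈ par X.cs {i, j} := hg.1
  have hgp' : g' ∈ par X.cs {i, j} := hg'.1
  have hgl : 2 ≤ X.cs.length g := ((hK5 g).1 hg).2
  have hgl' : 2 ≤ X.cs.length g' := ((hK5 g').1 hg').2
  -- the coefficient has degree at most 0
  obtain ⟨-, -, -, h24, -, h26, -⟩ := g_h2 S W H X.M X.cs X.L X.wt X.D
  have hp0 : DegLE 0 (X.D.t.repr (X.D.c g) g') := by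
    by_cases hgg : g' = g
    · rw [hgg, h24 g]
      exact DegLE.one le_rfl
    · exact (h26 g g' hgg).mono (by norm_num)
  -- `L_i, L_j ≤ α g`
  have hmax : X.l i ≤ X.α g ∧ X.l j ≤ X.α g := by
    have key : ∀ k k' : S, ((k = i ∧ k' = j) ∨ (k = j ∧ k' = i)) → X.cs.IsLeftDescent g k →
        X.l k ≤ X.α g ∧ X.l k' ≤ X.α g := by
      intro k k' hkk hd
      have hk : k = i ∨ k = j := by
        rcases hkk with h | h
        · exact Or.inl h.1
        · exact Or.inr h.1
      have hk' : k' = i ∨ k' = j := by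
        rcases hkk with h | h
        · exact Or.inr h.2
        · exact Or.inl h.2
      obtain ⟨hm, ha, hb⟩ := desc X i j k hk g hgp hd
      have hlen : X.cs.length (X.cs.simple k * g) + 1 = X.cs.length g :=
        X.cs.isLeftDescent_iff.1 hd
      have hne : X.cs.simple k * g ≠ 1 := by
        intro h0
        rw [h0, X.cs.length_one] at hlen
        omega
      have hnd : ¬ X.cs.IsLeftDescent (X.cs.simple k * g) k := by
        intro h0
        have h0' := X.cs.isLeftDescent_iff.1 h0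
        rw [← mul_assoc, X.cs.simple_mul_simple_self, one_mul] at h0'
        omega
      have hd' : X.cs.IsLeftDescent (X.cs.simple k * g) k' := by
        rcases ((hK3 _ hm).2 hne).2 with h | h
        · rcases hkk with h' | h'
          · rw [h'.1] at hnd
            rw [h'.1] at h
            exact absurd h hnd
          · rw [h'.2]
            exact h
        · rcases hkk with h' | h'
          · rw [h'.2]
            exact h
          · rw [h'.1] at hnd
            rw [h'.1] at h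
            exact absurd h hnd
      obtain ⟨-, hc, -⟩ := desc X i j k' hk' _ hm hd'
      rw [hαi] at ha hc
      exact ⟨ha, hc.trans hb⟩
    have hg1 : g ≠ 1 := by
      intro h0
      rw [h0, X.cs.length_one] at hgl
      omega
    rcases ((hK3 g hgp).2 hg1).2 with hd | hd
    · exact key i j (Or.inl ⟨rfl, rfl⟩) hd
    · exact (key j i (Or.inr ⟨rfl, rfl⟩) hd).symm
  have hg1 : g ≠ 1 := by
    intro h0
    rw [h0, X.cs.length_one] at hgl
    omega
  -- case m = 2
  by_cases hm2 : X.M i j = 2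
  · have hw : ∀ z ∈ par X.cs {i, j}, 2 ≤ X.cs.length z → z = w0 X.cs i j := by
      intro z hz hzl
      by_contra hne
      have := (hK2 z hz).2.1 hne
      omega
    have e1 : g = w0 X.cs i j := hw g hgp hgl
    have e2 : g' = w0 X.cs i j := hw g' hgp' hgl'
    refine ⟨X.L g', ⟨?_, Or.inl ⟨Or.inl hm2, rfl⟩⟩, ?_⟩
    · rw [e2, ← hαw, ← e1]
      exact_mod_cast hαM
    · rw [e1, hαw, e2, sub_self]
      rw [e1, e2] at hp0
      exact hp0
  by_cases hLM : X.L (w0 X.cs i j) ≤ M
  · -- `L(w0) ≤ M`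
    refine ⟨X.L g', ⟨?_, Or.inl ⟨Or.inr hLM, rfl⟩⟩, ?_⟩
    · by_cases hgw : g' = w0 X.cs i j
      · rw [hgw]
        exact_mod_cast hLM
      · obtain ⟨-, -, -, -, -, -, hT7⟩ := hT i j hij
        have := (hT7 g' hgp' hgw).1
        have h' : X.L g' ≤ M := by omega
        exact_mod_cast h'
    · exact h4 S W H X {i, j} g g' hSm hgp hgp'
  have hLM' : M < X.L (w0 X.cs i j) := not_le.1 hLM
  have hgw : g ≠ w0 X.cs i j := by
    intro h0
    rw [h0, hαw] at hαM
    omega
  have hi : (X.l i : ℤ) ≤ X.α g := by exact_mod_cast hmax.1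
  have hj : (X.l j : ℤ) ≤ X.α g := by exact_mod_cast hmax.2
  have hM : (X.α g : ℤ) ≤ M := by exact_mod_cast hαM
  have hg'4 : g' = X.cs.simple i * X.cs.simple j ∨ g' = X.cs.simple j * X.cs.simple i ∨
      g' = X.cs.simple i * X.cs.simple j * X.cs.simple i ∨
      g' = X.cs.simple j * X.cs.simple i * X.cs.simple j := by
    have : X.cs.length g' = 2 ∨ X.cs.length g' = 3 := by omega
    rcases this with h | h
    · rcases (hK6 g' hgp').2.1 h with h | h
      · exact Or.inl h
      · exact Or.inr (Or.inl h)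
    · rcases (hK6 g' hgp').2.2 h with h | h
      · exact Or.inr (Or.inr (Or.inl h))
      · exact Or.inr (Or.inr (Or.inr h))
  by_cases hcase : (X.α g : ℤ) ≤ max (X.l i : ℤ) (X.l j)
  · -- `α g ≤ max`
    have hle : max (X.l i : ℤ) (X.l j) ≤ X.α g := max_le hi hj
    refine ⟨max (X.l i : ℤ) (X.l j), ⟨hle.trans hM, Or.inr (Or.inl ⟨hm2, hLM', by push_cast; rfl⟩)⟩, ?_⟩
    exact hp0.mono (by omega)
  have hbig : max (X.l i : ℤ) (X.l j) < X.α g := not_le.1 hcase
  have hbi : (X.l i : ℤ) < X.α g := lt_of_le_of_lt (le_max_left _ _) hbig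
  have hbj : (X.l j : ℤ) < X.α g := lt_of_le_of_lt (le_max_right _ _) hbig
  rcases lt_trichotomy (X.l i) (X.l j) with hlt | heq | hlt
  · -- `L_i < L_j`
    have hm2' : X.M j i ≠ 2 := by
      rw [X.M.symmetric j i]
      exact hm2
    obtain ⟨hD1, hD2, hD3, hD4⟩ := h6 S W H X j i hij.symm hm2' hlt
    rw [← hw0s] at hD1 hD2 hD3 hD4
    rw [Set.pair_comm j i] at hD1
    have hge : g = w0 X.cs i j * X.cs.simple i := by
      by_contra hne
      have := hD1 g hgp hgw hne
      omega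
    rw [← hge] at hD2 hD3 hD4
    have hlt' : (X.l i : ℤ) < X.l j := by exact_mod_cast hlt
    have hmx : max (X.l i : ℤ) (X.l j) = X.l j := max_eq_right hlt'.le
    have hD2' : 4 * (X.l j : ℤ) ≤ X.α g + 3 * X.l i := by exact_mod_cast hD2
    by_cases h' : g' = X.cs.simple j * X.cs.simple i * X.cs.simple j
    · refine ⟨2 * (X.l j : ℤ) - X.l i, ⟨by omega, Or.inr (Or.inr (Or.inr
        ⟨hm2, hLM', h', hlt, ?_, rfl⟩))⟩, ?_⟩
      · rw [← hge]
        exact hαM
      · rw [h']
        exact hD4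
    · refine ⟨max (X.l i : ℤ) (X.l j), ⟨hbig.le.trans hM,
        Or.inr (Or.inl ⟨hm2, hLM', by push_cast; rfl⟩)⟩, ?_⟩
      rw [hmx]
      refine hD3 g' ?_
      rcases hg'4 with h | h | h | h
      · exact Or.inr (Or.inl h)
      · exact Or.inl h
      · exact Or.inr (Or.inr h)
      · exact absurd h h'
  · -- `L_i = L_j`
    have := h5 S W H X i j hij hm2 heq g hgp hg1 hgw
    omega
  · -- `L_j < L_i`
    obtain ⟨hD1, hD2, hD3, hD4⟩ := h6 S W H X i j hij hm2 hlt
    have hge : g = w0 X.cs i j * X.cs.simple j := by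
      by_contra hne
      have := hD1 g hgp hgw hne
      omega
    rw [← hge] at hD2 hD3 hD4
    have hlt' : (X.l j : ℤ) < X.l i := by exact_mod_cast hlt
    have hmx : max (X.l i : ℤ) (X.l j) = X.l i := max_eq_left hlt'.le
    have hD2' : 4 * (X.l i : ℤ) ≤ X.α g + 3 * X.l j := by exact_mod_cast hD2
    by_cases h' : g' = X.cs.simple i * X.cs.simple j * X.cs.simple i
    · refine ⟨2 * (X.l i : ℤ) - X.l j, ⟨by omega, Or.inr (Or.inr (Or.inl
        ⟨hm2, hLM', h', hlt, ?_, rfl⟩))⟩, ?_⟩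
      · rw [← hge]
        exact hαM
      · rw [h']
        exact hD4
    · refine ⟨max (X.l i : ℤ) (X.l j), ⟨hbig.le.trans hM,
        Or.inr (Or.inl ⟨hm2, hLM', by push_cast; rfl⟩)⟩, ?_⟩
      rw [hmx]
      refine hD3 g' ?_
      rcases hg'4 with h | h | h | h
      · exact Or.inl h
      · exact Or.inr (Or.inl h)
      · exact absurd h h'
      · exact Or.inr (Or.inr h)

end Pool.Agent.Helper9.LE.HBD
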